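import Mathlib
import Pool.Agent.VM5.Stmts

/-!
# HCN: the number of `(h, h', d, d')` in the case `c₁ W < K ^ 3`
-/

set_option autoImplicit false

namespace Pool.Agent.VM5.H54

open Pool.Agent.VM5

/-- integers in `[1, N]` whose `5`-multiples are congruent modulo `u` -/
theorem card_five (N u : ℕ) (hu : 1 ≤ u) (A : Finset ℕ) (hA : ∀ x ∈ A, 1 ≤ x ∧ x ≤ N)
    (h : ∀ x ∈ A, ∀ y ∈ A, (u : ℤ) ∣ 5 * ((x : ℤ) - (y : ℤ))) :
    (A.card : ℝ) ≤ 1 + 5 * (N : ℝ) / (u : ℝ) := by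
  classical
  have hu0 : (0 : ℝ) < u := by exact_mod_cast hu
  rcases A.eq_empty_or_nonempty with h0 | h0
  · rw [h0]; simp; positivity
  obtain ⟨x₀, hx₀, hmin⟩ := A.exists_min_image (fun x => x) h0
  have hle : A.card ≤ (Finset.range (5 * N / u + 1)).card := by
    apply Finset.card_le_card_of_injOn (fun x => 5 * (x - x₀) / u)
    · intro x hx
      have hx' := hA x hx
      simp only [Finset.coe_range, Set.mem_Iio]
      have : 5 * (x - x₀) / u ≤ 5 * N / u := Nat.div_le_div_right (by omega)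
      omega
    · intro x hx y hy hxy
      have e1 : u ∣ 5 * (x - x₀) := by
        have h1 := h x hx x₀ hx₀
        have h2 := hmin x hx
        have : (5 * ((x : ℤ) - (x₀ : ℤ))) = ((5 * (x - x₀) : ℕ) : ℤ) := by push_cast [h2]; ring
        rw [this] at h1
        exact_mod_cast h1
      have e2 : u ∣ 5 * (y - x₀) := by
        have h1 := h y hy x₀ hx₀
        have h2 := hmin y hy
        have : (5 * ((y : ℤ) - (x₀ : ℤ))) = ((5 * (y - x₀) : ℕ) : ℤ) := by push_cast [h2]; ring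
        rw [this] at h1
        exact_mod_cast h1
      have e3 : 5 * (x - x₀) = 5 * (y - x₀) := by
        have hxy' : 5 * (x - x₀) / u = 5 * (y - x₀) / u := hxy
        rw [← Nat.div_mul_cancel e1, ← Nat.div_mul_cancel e2, hxy']
      have h2 := hmin x hx
      have h3 := hmin y hy
      omega
  rw [Finset.card_range] at hle
  have h4 : (A.card : ℝ) ≤ ((5 * N / u : ℕ) : ℝ) + 1 := by exact_mod_cast hle
  have h5 : ((5 * N / u : ℕ) : ℝ) ≤ 5 * (N : ℝ) / (u : ℝ) := by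
    have := @Nat.cast_div_le ℝ _ _ _ (5 * N) u
    push_cast at this
    exact this
  linarith

theorem gcd_kappa (u : ℕ) (b : ℤ) (d d' : ℕ) (hb : Int.gcd b (u : ℤ) = 1)
    (hd : Nat.Coprime d u) :
    Int.gcd (10 * b * (d : ℤ) ^ 2 * ((d' : ℤ) ^ 10 - (d : ℤ) ^ 10)) (u : ℤ) =
      Int.gcd (10 * ((d' : ℤ) ^ 10 - (d : ℤ) ^ 10)) (u : ℤ) := by
  have e : (10 * b * (d : ℤ) ^ 2 * ((d' : ℤ) ^ 10 - (d : ℤ) ^ 10)) =
      (10 * ((d' : ℤ) ^ 10 - (d : ℤ) ^ 10)) * (b * (d : ℤ) ^ 2) := by ring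
  rw [e]
  have hc : Nat.Coprime (b * (d : ℤ) ^ 2).natAbs u := by
    rw [Int.natAbs_mul, Int.natAbs_pow, Int.natAbs_natCast]
    refine Nat.Coprime.mul_left ?_ (Nat.Coprime.pow_left 2 hd)
    have := hb
    rw [Int.gcd, Int.natAbs_natCast] at this
    exact this
  rw [Int.gcd, Int.gcd, Int.natAbs_natCast, Int.natAbs_mul]
  exact Nat.Coprime.gcd_mul_right_cancel _ hc

/-- HCN -/
theorem hcn (sig : SigStmt) (str : StrStmt) (cub : CubStmt) (gsm : GsmStmt) : HcnStmt := by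
  classical
  obtain ⟨C₀, hC₀, hstr⟩ := str
  obtain ⟨C₄, hC₄, hsig⟩ := sig
  refine ⟨C₀, hC₀, ?_⟩
  intro ε hε
  obtain ⟨C₂, hC₂, hcub⟩ := cub (ε / 2) (by linarith)
  obtain ⟨C₃, hC₃, hgsm⟩ := gsm (ε / 8) (by linarith)
  refine ⟨5 * C₂ * (C₀ + 1 + C₃), by positivity, ?_⟩
  intro N D K u H g t b S hpar hW hg hgH hHN
  have hpar' := hpar
  obtain ⟨p1, p2, p3, p4, p5, p6, p7, p8, p9, p10, p11, p12⟩ := hpar'
  have hu1 : 1 ≤ u := by omega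
  have hN1 : 1 ≤ N := by omega
  have hu0 : (0 : ℝ) < u := by exact_mod_cast hu1
  have hN0 : (0 : ℝ) < N := by exact_mod_cast hN1
  have hD0 : (0 : ℝ) < D := by
    have : 0 < D := by omega
    exact_mod_cast this
  have hWu : (u : ℝ) ≤ WW N u t b := le_max_left _ _
  have hW0 : 0 < WW N u t b := lt_of_lt_of_le hu0 hWu
  have hKN : K ≤ N := by
    have : K ≤ 4 * D * K := Nat.le_mul_of_pos_left K (by omega)
    omega
  have hK1 : 1 ≤ K := by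
    rcases Nat.eq_zero_or_pos K with h | h
    · rw [h] at p2; omega
    · exact h
  have hK0 : (0 : ℝ) < K := by exact_mod_cast hK1
  have huN : u ≤ N ^ 4 := by
    have h1 : (K : ℝ) ≤ N := by exact_mod_cast hKN
    have h2 : (K : ℝ) ^ 4 ≤ (N : ℝ) ^ 4 := by gcongr
    have h3 : (u : ℝ) ≤ (N : ℝ) ^ 4 := by nlinarith
    exact_mod_cast h3
  have huN' : (u : ℝ) ≤ (N : ℝ) ^ 4 := by exact_mod_cast huN
  set W := WW N u t b with hWdef
  set s₀ : ℝ := C₀ * W / (K : ℝ) ^ 2 with hs₀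
  have hs₀0 : 0 ≤ s₀ := by positivity
  -- the finite set
  set Q : (ℕ × ℕ) × (ℕ × ℕ) → Prop := fun x =>
    H < 2 * x.1.1 ∧ x.1.1 ≤ H ∧ H < 2 * x.1.2 ∧
        x.1.2 ≤ H ∧ Nat.gcd x.1.1 u = g ∧ Nat.gcd x.1.2 u = g ∧
        x.2.1 ∈ S ∧ x.2.2 ∈ S ∧ x.2.1 ≠ x.2.2 ∧
        ∃ r r' : ℤ, |r| ≤ (N : ℤ) ∧ |r'| ≤ (N : ℤ) ∧
          Close2 K t ((x.1.1, x.2.1, r), (x.1.2, x.2.2, r')) with hQ
  set F : Finset ((ℕ × ℕ) × (ℕ × ℕ)) :=
    ((Finset.Icc 1 N ×ˢ Finset.Icc 1 N) ×ˢ (S ×ˢ S)).filter Q with hF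
  have hcardF : Nat.card {x : (ℕ × ℕ) × (ℕ × ℕ) // Q x} = F.card := by
    apply Nat.subtype_card
    intro x
    simp only [hF, Finset.mem_filter, Finset.mem_product, Finset.mem_Icc]
    constructor
    · exact fun h => h.2
    · intro h
      refine ⟨?_, h⟩
      obtain ⟨h1, h2, h3, h4, h5, h6, h7, h8, h9, h10⟩ := h
      exact ⟨⟨⟨by omega, by omega⟩, ⟨by omega, by omega⟩⟩, h7, h8⟩
  set T : Finset (ℕ × ℕ) := (S ×ˢ S).filter (fun x => x.1 ≠ x.2) with hT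
  have hmemF : ∀ x ∈ F, Q x := fun x hx => (Finset.mem_filter.1 hx).2
  have hmaps : ∀ x ∈ F, x.2 ∈ T := by
    intro x hx
    obtain ⟨h1, h2, h3, h4, h5, h6, h7, h8, h9, h10⟩ := hmemF x hx
    exact Finset.mem_filter.2 ⟨Finset.mem_product.2 ⟨h7, h8⟩, h9⟩
  have hTS : ∀ y ∈ T, y.1 ∈ S ∧ y.2 ∈ S ∧ y.1 ≠ y.2 := by
    intro y hy
    obtain ⟨a1, a2⟩ := Finset.mem_filter.1 hy
    exact ⟨(Finset.mem_product.1 a1).1, (Finset.mem_product.1 a1).2, a2⟩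
  have hcop : ∀ d ∈ S, Nat.Coprime d u := fun d hd =>
    ((p12 d hd).2.2.1.coprime_iff_not_dvd).2 (p12 d hd).2.2.2
  -- points
  have hP2 : ∀ (h d : ℕ) (r : ℤ), 1 ≤ h → h ≤ N → d ∈ S → |r| ≤ (N : ℤ) → (h, d, r) ∈ P2 N S := by
    intro h d r a1 a2 a3 a4
    simp only [P2, Finset.mem_product, Finset.mem_Icc]
    exact ⟨⟨a1, a2⟩, a3, (abs_le.1 a4).1, (abs_le.1 a4).2⟩
  -- one pair `(d, d')`
  have hone : ∀ y ∈ T, ((F.filter (fun x => x.2 = y)).card : ℝ) ≤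
      (C₂ * (N : ℝ) ^ (ε / 2) * (g : ℝ) ^ 2 * (1 + (N : ℝ) / (u : ℝ)) *
        (s₀ + 1 + (Int.gcd (10 * ((y.2 : ℤ) ^ 10 - (y.1 : ℤ) ^ 10)) (u : ℤ) : ℝ))) *
        (5 * (1 + (N : ℝ) / (u : ℝ))) := by
    intro y hy
    obtain ⟨hy1, hy2, hy3⟩ := hTS y hy
    set κ : ℤ := 10 * b * (y.1 : ℤ) ^ 2 * ((y.2 : ℤ) ^ 10 - (y.1 : ℤ) ^ 10) with hκ
    set RH : ℕ → Prop := fun h => 1 ≤ h ∧ h ≤ N ∧ Nat.gcd h u = g ∧
        ∃ σ : ℤ, |(σ : ℝ)| ≤ s₀ ∧ (u : ℤ) ∣ κ * (h : ℤ) ^ 3 - σ * ((y.2 : ℤ) ^ 10) with hRH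
    set HS : Finset ℕ := (Finset.Icc 1 N).filter RH with hHS
    have hHScard : Nat.card {h : ℕ // RH h} = HS.card := by
      apply Nat.subtype_card
      intro h
      simp only [hHS, Finset.mem_filter, Finset.mem_Icc]
      constructor
      · exact fun a => a.2
      · exact fun a => ⟨⟨a.1, a.2.1⟩, a⟩
    have hHSle : (HS.card : ℝ) ≤ C₂ * (N : ℝ) ^ (ε / 2) * (g : ℝ) ^ 2 * (1 + (N : ℝ) / (u : ℝ)) *
        (s₀ + 1 + (Int.gcd (10 * ((y.2 : ℤ) ^ 10 - (y.1 : ℤ) ^ 10)) (u : ℤ) : ℝ)) := by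
      have h1 := hcub N u g κ ((y.2 : ℤ) ^ 10) s₀ hN1 hu1 huN hg ?_ hs₀0
      · rw [hHScard, gcd_kappa u b y.1 y.2 p9 (hcop _ hy1)] at h1
        exact h1
      · rw [Int.gcd, Int.natAbs_pow, Int.natAbs_natCast, Int.natAbs_natCast]
        exact Nat.Coprime.pow_left 10 (hcop _ hy2)
    have hmaps2 : ∀ x ∈ F.filter (fun x => x.2 = y), x.1.1 ∈ HS := by
      intro x hx
      obtain ⟨hx1, hx2⟩ := Finset.mem_filter.1 hx
      obtain ⟨h1, h2, h3, h4, h5, h6, h7, h8, h9, r, r', h10, h11, h12⟩ := hmemF x hx1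
      have i1 := hP2 x.1.1 x.2.1 r (by omega) (by omega) h7 h10
      have i2 := hP2 x.1.2 x.2.2 r' (by omega) (by omega) h8 h11
      obtain ⟨σ, hσ1, hσ2⟩ := hstr N D K u t b S hpar hW _ i1 _ i2 h12
      refine Finset.mem_filter.2 ⟨Finset.mem_Icc.2 ⟨by omega, by omega⟩, by omega, by omega, h5,
        σ, hσ1, ?_⟩
      rw [hκ, ← hx2]
      exact hσ2
    have hfib : ∀ h ∈ HS, (((F.filter (fun x => x.2 = y)).filter (fun x => x.1.1 = h)).card : ℝ) ≤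
        5 * (1 + (N : ℝ) / (u : ℝ)) := by
      intro h hh
      set A := ((F.filter (fun x => x.2 = y)).filter (fun x => x.1.1 = h)).image
        (fun x => x.1.2) with hA
      have hAcard : A.card = ((F.filter (fun x => x.2 = y)).filter (fun x => x.1.1 = h)).card := by
        rw [hA]
        apply Finset.card_image_of_injOn
        intro x hx x' hx' hxx
        obtain ⟨a1, a2⟩ := Finset.mem_filter.1 hx
        obtain ⟨b1, b2⟩ := Finset.mem_filter.1 hx'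
        have a3 := (Finset.mem_filter.1 a1).2
        have b3 := (Finset.mem_filter.1 b1).2
        exact Prod.ext (Prod.ext (a2.trans b2.symm) hxx) (a3.trans b3.symm)
      rw [← hAcard]
      have h13 := card_five N u hu1 A ?_ ?_
      · have : 5 * (N : ℝ) / (u : ℝ) = 5 * ((N : ℝ) / (u : ℝ)) := by ring
        rw [this] at h13
        linarith
      · intro z hz
        obtain ⟨x, hx, rfl⟩ := Finset.mem_image.1 hz
        have a1 := (Finset.mem_filter.1 (Finset.mem_filter.1 hx).1).1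
        obtain ⟨h1, h2, h3, h4, _⟩ := hmemF x a1
        exact ⟨by omega, by omega⟩
      · have hkey : ∀ z ∈ A, (u : ℤ) ∣ 5 * (h : ℤ) * (y.1 : ℤ) ^ 4 - 5 * (z : ℤ) * (y.2 : ℤ) ^ 4 := by
          intro z hz
          obtain ⟨x, hx, rfl⟩ := Finset.mem_image.1 hz
          obtain ⟨a0, a2⟩ := Finset.mem_filter.1 hx
          obtain ⟨a1, a3⟩ := Finset.mem_filter.1 a0
          obtain ⟨h1, h2, h3, h4, h5, h6, h7, h8, h9, r, r', h10, h11, h12⟩ := hmemF x a1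
          have i1 := hP2 x.1.1 x.2.1 r (by omega) (by omega) h7 h10
          have i2 := hP2 x.1.2 x.2.2 r' (by omega) (by omega) h8 h11
          have h14 := (hsig N D K u t b S hpar _ i1 _ i2 h12).1.1
          simp only [m4] at h14
          rw [a2, a3] at h14
          exact h14
        intro z hz z' hz'
        have h15 := dvd_sub (hkey z' hz') (hkey z hz)
        have h16 : (5 * (h : ℤ) * (y.1 : ℤ) ^ 4 - 5 * (z' : ℤ) * (y.2 : ℤ) ^ 4) -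
            (5 * (h : ℤ) * (y.1 : ℤ) ^ 4 - 5 * (z : ℤ) * (y.2 : ℤ) ^ 4) =
            (5 * ((z : ℤ) - (z' : ℤ))) * (y.2 : ℤ) ^ 4 := by ring
        rw [h16] at h15
        refine (IsCoprime.dvd_of_dvd_mul_right ?_ h15)
        have h17 : IsCoprime (y.2 : ℤ) (u : ℤ) := Nat.isCoprime_iff_coprime.2 (hcop _ hy2)
        exact (IsCoprime.pow_left h17).symm
    have hsum : (F.filter (fun x => x.2 = y)).card =
        ∑ h ∈ HS, ((F.filter (fun x => x.2 = y)).filter (fun x => x.1.1 = h)).card :=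
      Finset.card_eq_sum_card_fiberwise (fun x hx => hmaps2 x hx)
    rw [hsum]
    push_cast
    calc ∑ h ∈ HS, (((F.filter (fun x => x.2 = y)).filter (fun x => x.1.1 = h)).card : ℝ)
        ≤ ∑ h ∈ HS, 5 * (1 + (N : ℝ) / (u : ℝ)) := Finset.sum_le_sum hfib
      _ = (HS.card : ℝ) * (5 * (1 + (N : ℝ) / (u : ℝ))) := by
          rw [Finset.sum_const, nsmul_eq_mul]
      _ ≤ _ := mul_le_mul_of_nonneg_right hHSle (by positivity)
  have hsumF : F.card = ∑ y ∈ T, (F.filter (fun x => x.2 = y)).card :=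
    Finset.card_eq_sum_card_fiberwise (fun x hx => hmaps x hx)
  have hTcard : (T.card : ℝ) ≤ (D : ℝ) ^ 2 := by
    have h1 : T.card ≤ (S ×ˢ S).card := Finset.card_filter_le _ _
    rw [Finset.card_product] at h1
    have h2 : S.card ≤ D := by
      have h3 : S ⊆ Finset.Ioc D (2 * D) := by
        intro d hd
        exact Finset.mem_Ioc.2 ⟨(p12 d hd).1, (p12 d hd).2.1⟩
      have h4 := Finset.card_le_card h3
      rw [Nat.card_Ioc] at h4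
      omega
    have h5 : T.card ≤ D * D := h1.trans (Nat.mul_le_mul h2 h2)
    have h6 : (T.card : ℝ) ≤ ((D * D : ℕ) : ℝ) := by exact_mod_cast h5
    push_cast at h6
    nlinarith
  have hg2 := hgsm D u S p3 hu1 p8 p12
  have hpowu : (u : ℝ) ^ (ε / 8) ≤ (N : ℝ) ^ (ε / 2) := by
    calc (u : ℝ) ^ (ε / 8) ≤ ((N : ℝ) ^ 4) ^ (ε / 8) :=
          Real.rpow_le_rpow hu0.le huN' (by linarith)
      _ = (N : ℝ) ^ (ε / 2) := by
          rw [← Real.rpow_natCast, ← Real.rpow_mul hN0.le]; congr 1; push_cast; ring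
  have hN2 : (1 : ℝ) ≤ (N : ℝ) ^ (ε / 2) :=
    Real.one_le_rpow (by exact_mod_cast hN1) (by linarith)
  set X : ℝ := (N : ℝ) ^ (ε / 2) with hX
  set R : ℝ := 1 + (N : ℝ) / (u : ℝ) with hR
  have hR0 : 0 < R := by positivity
  have hX0 : 0 < X := by linarith
  have hXX : (N : ℝ) ^ ε = X * X := by
    rw [hX, ← Real.rpow_add hN0]; congr 1; ring
  have hg0 : (0 : ℝ) < (g : ℝ) := by exact_mod_cast hg
  change (Nat.card {x : (ℕ × ℕ) × (ℕ × ℕ) // Q x} : ℝ) ≤ _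
  rw [hcardF, hsumF]
  push_cast
  have step1 : ∑ y ∈ T, ((F.filter (fun x => x.2 = y)).card : ℝ) ≤
      ∑ y ∈ T, (5 * C₂ * X * (g : ℝ) ^ 2 * R ^ 2) *
        ((s₀ + 1) + (Int.gcd (10 * ((y.2 : ℤ) ^ 10 - (y.1 : ℤ) ^ 10)) (u : ℤ) : ℝ)) := by
    apply Finset.sum_le_sum
    intro y hy
    refine (hone y hy).trans (le_of_eq ?_)
    ring
  have step2 : ∑ y ∈ T, (5 * C₂ * X * (g : ℝ) ^ 2 * R ^ 2) *
        ((s₀ + 1) + (Int.gcd (10 * ((y.2 : ℤ) ^ 10 - (y.1 : ℤ) ^ 10)) (u : ℤ) : ℝ)) =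
      (5 * C₂ * X * (g : ℝ) ^ 2 * R ^ 2) * ((T.card : ℝ) * (s₀ + 1) +
        ∑ y ∈ T, (Int.gcd (10 * ((y.2 : ℤ) ^ 10 - (y.1 : ℤ) ^ 10)) (u : ℤ) : ℝ)) := by
    rw [← Finset.mul_sum, Finset.sum_add_distrib, Finset.sum_const, nsmul_eq_mul]
  refine step1.trans ?_
  rw [step2]
  have step3 : (T.card : ℝ) * (s₀ + 1) +
        ∑ y ∈ T, (Int.gcd (10 * ((y.2 : ℤ) ^ 10 - (y.1 : ℤ) ^ 10)) (u : ℤ) : ℝ) ≤
      (C₀ + 1 + C₃) * X * ((D : ℝ) ^ 2 * W / (K : ℝ) ^ 2 + (D : ℝ) ^ 2 + (u : ℝ)) := by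
    set Wk : ℝ := W / (K : ℝ) ^ 2 with hWk
    have hWk0 : 0 ≤ Wk := by positivity
    have a1 : (T.card : ℝ) * (s₀ + 1) ≤ (D : ℝ) ^ 2 * (s₀ + 1) :=
      mul_le_mul_of_nonneg_right hTcard (by positivity)
    have a2 : s₀ = C₀ * Wk := by rw [hs₀, hWk]; ring
    have a3 : (D : ℝ) ^ 2 * W / (K : ℝ) ^ 2 = (D : ℝ) ^ 2 * Wk := by rw [hWk]; ring
    have a4 : ∑ y ∈ T, (Int.gcd (10 * ((y.2 : ℤ) ^ 10 - (y.1 : ℤ) ^ 10)) (u : ℤ) : ℝ) ≤
        C₃ * X * ((u : ℝ) + (D : ℝ) ^ 2) := by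
      refine hg2.trans ?_
      apply mul_le_mul_of_nonneg_right _ (by positivity)
      exact mul_le_mul_of_nonneg_left hpowu hC₃.le
    rw [a3, a2]
    rw [a2] at a1
    have hD2 : 0 ≤ (D : ℝ) ^ 2 := by positivity
    have hDW : 0 ≤ (D : ℝ) ^ 2 * Wk := by positivity
    have b1 : (D : ℝ) ^ 2 * (C₀ * Wk + 1) ≤
        (C₀ + 1) * X * ((D : ℝ) ^ 2 * Wk + (D : ℝ) ^ 2 + (u : ℝ)) := by
      have c1 : (D : ℝ) ^ 2 * (C₀ * Wk + 1) ≤
          (C₀ + 1) * ((D : ℝ) ^ 2 * Wk + (D : ℝ) ^ 2 + (u : ℝ)) := by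
        nlinarith [mul_nonneg hC₀.le hD2, mul_nonneg hC₀.le hu0.le]
      have c2 : (C₀ + 1) * ((D : ℝ) ^ 2 * Wk + (D : ℝ) ^ 2 + (u : ℝ)) ≤
          ((C₀ + 1) * ((D : ℝ) ^ 2 * Wk + (D : ℝ) ^ 2 + (u : ℝ))) * X :=
        le_mul_of_one_le_right (by positivity) hN2
      calc _ ≤ _ := c1
        _ ≤ _ := c2
        _ = _ := by ring
    have b2 : C₃ * X * ((u : ℝ) + (D : ℝ) ^ 2) ≤
        C₃ * X * ((D : ℝ) ^ 2 * Wk + (D : ℝ) ^ 2 + (u : ℝ)) :=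
      mul_le_mul_of_nonneg_left (by linarith) (by positivity)
    calc _ ≤ (C₀ + 1) * X * ((D : ℝ) ^ 2 * Wk + (D : ℝ) ^ 2 + (u : ℝ)) +
          C₃ * X * ((D : ℝ) ^ 2 * Wk + (D : ℝ) ^ 2 + (u : ℝ)) := by linarith
      _ = _ := by ring
  calc (5 * C₂ * X * (g : ℝ) ^ 2 * R ^ 2) * ((T.card : ℝ) * (s₀ + 1) +
        ∑ y ∈ T, (Int.gcd (10 * ((y.2 : ℤ) ^ 10 - (y.1 : ℤ) ^ 10)) (u : ℤ) : ℝ))
      ≤ (5 * C₂ * X * (g : ℝ) ^ 2 * R ^ 2) * ((C₀ + 1 + C₃) * X *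
        ((D : ℝ) ^ 2 * W / (K : ℝ) ^ 2 + (D : ℝ) ^ 2 + (u : ℝ))) :=
        mul_le_mul_of_nonneg_left step3 (by positivity)
    _ = _ := by rw [hXX]; ring

end Pool.Agent.VM5.H54
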