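import Mathlib
import Pool.Agent.VM5.Stmts
import Pool.Agent.Helper69_Weyl.Divisor

/-!
# GSM: the sum of the greatest common divisors
-/

set_option autoImplicit false

namespace Pool.Agent.VM5.H54

open Pool.Agent.VM5

/-- one class of the ratio modulo `M` -/
theorem fiber_le (slp : SlpStmt) (D M : ℕ) (S : Finset ℕ) (hM : 1 ≤ M) (hD : 10 < D)
    (hS : ∀ d ∈ S, D < d ∧ d ≤ 2 * D ∧ d.Prime) (ρ : ZMod M)
    (P : Finset (ℕ × ℕ)) (hP : ∀ x ∈ P, x.1 ∈ S ∧ x.2 ∈ S ∧ x.1 ≠ x.2)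
    (hρ : ∀ x ∈ P, (x.1 : ZMod M) = ρ * (x.2 : ZMod M)) :
    (P.card : ℝ) ≤ 1 + 6 * (D : ℝ) ^ 2 / (M : ℝ) := by
  have h := slp P (2 * D) M (1 / 2) (3 / 2) hM (by norm_num) ?_ ?_
  · refine h.trans (le_of_eq ?_)
    push_cast
    ring
  · intro x hx
    obtain ⟨h1, h2, h3⟩ := hP x hx
    obtain ⟨a1, a2, a3⟩ := hS _ h1
    obtain ⟨b1, b2, b3⟩ := hS _ h2
    have q2 : (0 : ℝ) < (x.2 : ℝ) := by
      have : 0 < x.2 := by omega
      exact_mod_cast this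
    have r1 : (D : ℝ) < (x.1 : ℝ) := by exact_mod_cast a1
    have r2 : (x.1 : ℝ) ≤ 2 * (D : ℝ) := by exact_mod_cast a2
    have r3 : (D : ℝ) < (x.2 : ℝ) := by exact_mod_cast b1
    have r4 : (x.2 : ℝ) ≤ 2 * (D : ℝ) := by exact_mod_cast b2
    refine ⟨by omega, by omega, b2, (Nat.coprime_primes a3 b3).2 h3, ?_, ?_⟩
    · rw [le_div_iff₀ q2]; linarith
    · rw [div_le_iff₀ q2]; linarith
  · intro x hx y hy
    have e1 := hρ x hx
    have e2 := hρ y hy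
    rw [← ZMod.intCast_zmod_eq_zero_iff_dvd _ M]
    push_cast
    rw [e1, e2]
    ring

theorem count_le (slp : SlpStmt) (D M : ℕ) (S : Finset ℕ) (hM : 1 ≤ M) (hD : 10 < D)
    (hS : ∀ d ∈ S, D < d ∧ d ≤ 2 * D ∧ d.Prime ∧ Nat.Coprime d M) :
    ((((S ×ˢ S).filter (fun x => x.1 ≠ x.2)).filter
      (fun x => (M : ℤ) ∣ (x.2 : ℤ) ^ 10 - (x.1 : ℤ) ^ 10)).card : ℝ) ≤
      (((Finset.range M).filter (fun x => Nat.Coprime x M ∧ x ^ 10 ≡ 1 [MOD M])).card : ℝ) *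
        (1 + 6 * (D : ℝ) ^ 2 / (M : ℝ)) := by
  classical
  haveI : NeZero M := ⟨by omega⟩
  set T := ((S ×ˢ S).filter (fun x : ℕ × ℕ => x.1 ≠ x.2)).filter
      (fun x => (M : ℤ) ∣ (x.2 : ℤ) ^ 10 - (x.1 : ℤ) ^ 10) with hT
  set R := (Finset.range M).filter (fun x => Nat.Coprime x M ∧ x ^ 10 ≡ 1 [MOD M]) with hR
  set f : ℕ × ℕ → ℕ := fun x => ((x.1 : ZMod M) * (x.2 : ZMod M)⁻¹).val with hf
  have mem : ∀ x ∈ T, x.1 ∈ S ∧ x.2 ∈ S ∧ x.1 ≠ x.2 ∧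
      (M : ℤ) ∣ (x.2 : ℤ) ^ 10 - (x.1 : ℤ) ^ 10 := by
    intro x hx
    simp only [hT, Finset.mem_filter, Finset.mem_product] at hx
    exact ⟨hx.1.1.1, hx.1.1.2, hx.1.2, hx.2⟩
  have unit : ∀ d ∈ S, (d : ZMod M) * (d : ZMod M)⁻¹ = 1 := fun d hd =>
    ZMod.coe_mul_inv_eq_one d (hS d hd).2.2.2
  have key : ∀ x ∈ T, (x.1 : ZMod M) = ((f x : ℕ) : ZMod M) * (x.2 : ZMod M) := by
    intro x hx
    obtain ⟨h1, h2, h3, h4⟩ := mem x hx
    simp only [hf]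
    rw [ZMod.natCast_zmod_val, mul_assoc, mul_comm (x.2 : ZMod M)⁻¹, unit _ h2, mul_one]
  have maps : ∀ x ∈ T, f x ∈ R := by
    intro x hx
    obtain ⟨h1, h2, h3, h4⟩ := mem x hx
    have u1 := unit _ h1
    have u2 := unit _ h2
    have e10 : (x.1 : ZMod M) ^ 10 = (x.2 : ZMod M) ^ 10 := by
      have := (ZMod.intCast_zmod_eq_zero_iff_dvd _ M).2 h4
      push_cast at this
      exact (sub_eq_zero.1 this).symm
    simp only [hR, Finset.mem_filter, Finset.mem_range]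
    refine ⟨ZMod.val_lt _, ?_, ?_⟩
    · have hu : IsUnit ((f x : ℕ) : ZMod M) := by
        simp only [hf]
        rw [ZMod.natCast_zmod_val]
        exact IsUnit.of_mul_eq_one ((x.1 : ZMod M)⁻¹ * (x.2 : ZMod M)) (by
          calc (x.1 : ZMod M) * (x.2 : ZMod M)⁻¹ * ((x.1 : ZMod M)⁻¹ * (x.2 : ZMod M))
              = ((x.1 : ZMod M) * (x.1 : ZMod M)⁻¹) * ((x.2 : ZMod M) * (x.2 : ZMod M)⁻¹) := by ring
            _ = 1 := by rw [u1, u2, mul_one])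
      exact (ZMod.isUnit_iff_coprime _ _).1 hu
    · rw [← ZMod.natCast_eq_natCast_iff]
      push_cast
      simp only [hf]
      rw [ZMod.natCast_zmod_val, mul_pow, e10, ← mul_pow, u2, one_pow]
  have hcard : T.card = ∑ ρ ∈ R, (T.filter (fun x => f x = ρ)).card :=
    Finset.card_eq_sum_card_fiberwise (fun x hx => maps x hx)
  rw [hcard]
  push_cast
  calc ∑ ρ ∈ R, ((T.filter (fun x => f x = ρ)).card : ℝ)
      ≤ ∑ ρ ∈ R, (1 + 6 * (D : ℝ) ^ 2 / (M : ℝ)) := by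
        apply Finset.sum_le_sum
        intro ρ _
        apply fiber_le slp D M S hM hD (fun d hd => ⟨(hS d hd).1, (hS d hd).2.1, (hS d hd).2.2.1⟩)
          (ρ : ZMod M)
        · intro x hx
          have := mem x (Finset.mem_filter.1 hx).1
          exact ⟨this.1, this.2.1, this.2.2.1⟩
        · intro x hx
          have h1 := key x (Finset.mem_filter.1 hx).1
          rw [(Finset.mem_filter.1 hx).2] at h1
          exact h1
    _ = _ := by rw [Finset.sum_const, nsmul_eq_mul]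

/-- GSM -/
theorem gsm (slp : SlpStmt) (rtu : VM.RtuStmt) : GsmStmt := by
  classical
  intro ε hε
  obtain ⟨C₁, hC₁, hr⟩ := rtu 10 (by norm_num) (ε / 2) (by linarith)
  obtain ⟨C₂, hC₂, hd⟩ := Helper69_Weyl.exists_card_divisors_le (ε / 2) (by linarith)
  refine ⟨60 * C₁ * C₂, by positivity, ?_⟩
  intro D u S hD hu hDu hS
  have hu0 : (0 : ℝ) < u := by exact_mod_cast hu
  set T := (S ×ˢ S).filter (fun x : ℕ × ℕ => x.1 ≠ x.2) with hT
  set g : ℕ × ℕ → ℕ := fun x => Int.gcd (10 * ((x.2 : ℤ) ^ 10 - (x.1 : ℤ) ^ 10)) (u : ℤ) with hg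
  have maps : ∀ x ∈ T, g x ∈ u.divisors := by
    intro x _
    rw [Nat.mem_divisors]
    refine ⟨?_, by omega⟩
    have : ((g x : ℕ) : ℤ) ∣ (u : ℤ) := Int.gcd_dvd_right _ _
    exact_mod_cast this
  have h1 : ∑ x ∈ T, ((g x : ℕ) : ℝ) =
      ∑ e ∈ u.divisors, ∑ x ∈ T.filter (fun x => g x = e), ((g x : ℕ) : ℝ) :=
    (Finset.sum_fiberwise_of_maps_to maps _).symm
  have h2 : ∀ e ∈ u.divisors, ∑ x ∈ T.filter (fun x => g x = e), ((g x : ℕ) : ℝ) ≤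
      60 * C₁ * (u : ℝ) ^ (ε / 2) * ((u : ℝ) + (D : ℝ) ^ 2) := by
    intro e he
    have heu := (Nat.mem_divisors.1 he).1
    have he0 : 0 < e := Nat.pos_of_dvd_of_pos heu (by omega)
    set c := Nat.gcd e 10 with hc
    have hc0 : 0 < c := Nat.gcd_pos_of_pos_left _ he0
    obtain ⟨M, hM⟩ : c ∣ e := Nat.gcd_dvd_left _ _
    obtain ⟨f, hf⟩ : c ∣ 10 := Nat.gcd_dvd_right _ _
    have hM0 : 0 < M := by
      rcases Nat.eq_zero_or_pos M with h | h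
      · rw [h] at hM; omega
      · exact h
    have hcop : Nat.Coprime M f := by
      have h3 : Nat.gcd (c * M) (c * f) = c := by rw [← hM, ← hf, hc]
      rw [Nat.gcd_mul_left] at h3
      exact Nat.eq_of_mul_eq_mul_left hc0 (by rw [mul_one]; exact h3)
    have hMe : M ∣ e := ⟨c, by rw [hM, mul_comm]⟩
    have hMu : M ∣ u := hMe.trans heu
    have hc10 : c ≤ 10 := Nat.le_of_dvd (by norm_num) (Nat.gcd_dvd_right _ _)
    have hsub : T.filter (fun x => g x = e) ⊆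
        T.filter (fun x => (M : ℤ) ∣ (x.2 : ℤ) ^ 10 - (x.1 : ℤ) ^ 10) := by
      intro x hx
      obtain ⟨hx1, hx2⟩ := Finset.mem_filter.1 hx
      refine Finset.mem_filter.2 ⟨hx1, ?_⟩
      have h4 : (e : ℤ) ∣ 10 * ((x.2 : ℤ) ^ 10 - (x.1 : ℤ) ^ 10) := by
        rw [← hx2]; exact Int.gcd_dvd_left _ _
      have h5 : (c : ℤ) * (M : ℤ) ∣ (c : ℤ) * ((f : ℤ) * ((x.2 : ℤ) ^ 10 - (x.1 : ℤ) ^ 10)) := by
        have e1 : (e : ℤ) = (c : ℤ) * (M : ℤ) := by exact_mod_cast hM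
        have e2 : (10 : ℤ) = (c : ℤ) * (f : ℤ) := by exact_mod_cast hf
        rw [e1, e2, mul_assoc] at h4
        exact h4
      have h6 : (M : ℤ) ∣ (f : ℤ) * ((x.2 : ℤ) ^ 10 - (x.1 : ℤ) ^ 10) :=
        (mul_dvd_mul_iff_left (by exact_mod_cast hc0.ne')).1 h5
      exact (Int.isCoprime_iff_gcd_eq_one.2 (by simpa using hcop)).dvd_of_dvd_mul_left h6
    have hcnt := count_le slp D M S hM0 hD (fun d hd' => ⟨(hS d hd').1, (hS d hd').2.1,
      (hS d hd').2.2.1, by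
        rw [Nat.Prime.coprime_iff_not_dvd (hS d hd').2.2.1]
        exact fun h => (hS d hd').2.2.2 (h.trans hMu)⟩)
    have hrt := hr M hM0
    have hMle : (M : ℝ) ≤ (u : ℝ) := by exact_mod_cast Nat.le_of_dvd (by omega) hMu
    have hM1 : (0 : ℝ) < (M : ℝ) := by exact_mod_cast hM0
    have hpow : (M : ℝ) ^ (ε / 2) ≤ (u : ℝ) ^ (ε / 2) :=
      Real.rpow_le_rpow hM1.le hMle (by linarith)
    have hel : (e : ℝ) ≤ 10 * (M : ℝ) := by
      have : e ≤ 10 * M := by rw [hM]; exact Nat.mul_le_mul_right _ hc10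
      exact_mod_cast this
    have s1 : ∑ x ∈ T.filter (fun x => g x = e), ((g x : ℕ) : ℝ) =
        ((T.filter (fun x => g x = e)).card : ℝ) * (e : ℝ) := by
      rw [Finset.sum_congr rfl (fun x hx => by rw [(Finset.mem_filter.1 hx).2]),
        Finset.sum_const, nsmul_eq_mul]
    rw [s1]
    have s2 : ((T.filter (fun x => g x = e)).card : ℝ) ≤
        C₁ * (u : ℝ) ^ (ε / 2) * (1 + 6 * (D : ℝ) ^ 2 / (M : ℝ)) := by
      calc ((T.filter (fun x => g x = e)).card : ℝ)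
          ≤ ((T.filter (fun x => (M : ℤ) ∣ (x.2 : ℤ) ^ 10 - (x.1 : ℤ) ^ 10)).card : ℝ) := by
            exact_mod_cast Finset.card_le_card hsub
        _ ≤ _ := hcnt
        _ ≤ _ := by
          apply mul_le_mul_of_nonneg_right _ (by positivity)
          exact hrt.trans (mul_le_mul_of_nonneg_left hpow hC₁.le)
    have s3 : (1 + 6 * (D : ℝ) ^ 2 / (M : ℝ)) * (e : ℝ) ≤ 60 * ((u : ℝ) + (D : ℝ) ^ 2) := by
      have t1 : (1 + 6 * (D : ℝ) ^ 2 / (M : ℝ)) * (e : ℝ) ≤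
          (1 + 6 * (D : ℝ) ^ 2 / (M : ℝ)) * (10 * (M : ℝ)) :=
        mul_le_mul_of_nonneg_left hel (by positivity)
      have t2 : (1 + 6 * (D : ℝ) ^ 2 / (M : ℝ)) * (10 * (M : ℝ)) =
          10 * (M : ℝ) + 60 * (D : ℝ) ^ 2 := by field_simp; ring
      rw [t2] at t1
      nlinarith [sq_nonneg (D : ℝ)]
    calc ((T.filter (fun x => g x = e)).card : ℝ) * (e : ℝ)
        ≤ C₁ * (u : ℝ) ^ (ε / 2) * (1 + 6 * (D : ℝ) ^ 2 / (M : ℝ)) * (e : ℝ) :=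
          mul_le_mul_of_nonneg_right s2 (by positivity)
      _ = C₁ * (u : ℝ) ^ (ε / 2) * ((1 + 6 * (D : ℝ) ^ 2 / (M : ℝ)) * (e : ℝ)) := by ring
      _ ≤ C₁ * (u : ℝ) ^ (ε / 2) * (60 * ((u : ℝ) + (D : ℝ) ^ 2)) :=
          mul_le_mul_of_nonneg_left s3 (by positivity)
      _ = _ := by ring
  have h3 : ((u.divisors.card : ℕ) : ℝ) ≤ C₂ * (u : ℝ) ^ (ε / 2) := hd u (by omega)
  calc ∑ x ∈ T, ((g x : ℕ) : ℝ)
      = ∑ e ∈ u.divisors, ∑ x ∈ T.filter (fun x => g x = e), ((g x : ℕ) : ℝ) := h1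
    _ ≤ ∑ e ∈ u.divisors, 60 * C₁ * (u : ℝ) ^ (ε / 2) * ((u : ℝ) + (D : ℝ) ^ 2) :=
        Finset.sum_le_sum h2
    _ = (u.divisors.card : ℝ) * (60 * C₁ * (u : ℝ) ^ (ε / 2) * ((u : ℝ) + (D : ℝ) ^ 2)) := by
        rw [Finset.sum_const, nsmul_eq_mul]
    _ ≤ (C₂ * (u : ℝ) ^ (ε / 2)) * (60 * C₁ * (u : ℝ) ^ (ε / 2) * ((u : ℝ) + (D : ℝ) ^ 2)) :=
        mul_le_mul_of_nonneg_right h3 (by positivity)
    _ = 60 * C₁ * C₂ * (u : ℝ) ^ ε * ((u : ℝ) + (D : ℝ) ^ 2) := by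
        have : (u : ℝ) ^ ε = (u : ℝ) ^ (ε / 2) * (u : ℝ) ^ (ε / 2) := by
          rw [← Real.rpow_add hu0]; congr 1; ring
        rw [this]; ring

end Pool.Agent.VM5.H54
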